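import Pool.Agent.Helper89.T4.GenE
import Pool.Agent.Helper31.T3.Final

/-!
Two paths of the lengths `n` and `(c + 1) * n - 1` side by side, and a negative edge with
`b ^ (c * n - 1) ≤ a ^ c`.
-/

set_option autoImplicit false

namespace Pool.Agent.Helper89.T4

open Pool.Agent.Helper24.T3 Pool.Agent.Helper31.T3

variable {J : Type*} [LinearOrder J] {a b : J ≃o J}

lemma two_aux {c n m e : ℕ} (hn : 2 ≤ n) (hc : 2 ≤ c) (hm : m + 1 = (c + 1) * n)
    (he : e + 1 = c * n) (hk : ∀ z, (b ^ e) z ≤ (a ^ c) z) (hab : ∀ z, a (b z) = b (a z))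
    (P : FPth a b n (fun _ => 1)) (Q : FPth a b m (fun _ => 1)) (h : P.Left Q) (z₀ : J) :
    False := by
  obtain ⟨N, rfl⟩ : ∃ N, n = N + 2 := ⟨n - 2, by omega⟩
  obtain ⟨C, rfl⟩ : ∃ C, c = C + 2 := ⟨c - 2, by omega⟩
  obtain rfl : m = (C + 3) * (N + 1) + (C + 2) := by
    have h1 : (C + 2 + 1) * (N + 2) = (C + 3) * (N + 1) + (C + 2) + 1 := by ring
    omega
  have hc : Commute a b := RelIso.ext hab
  have hgb : Commute (b ^ (N + 2) * a⁻¹) b :=
    ((Commute.refl b).pow_left _).mul_left hc.inv_left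
  have hpow : (b ^ (N + 2) * a⁻¹) ^ (C + 2) = b * (b ^ e * (a ^ (C + 2))⁻¹) := by
    rw [((hc.inv_left).symm.pow_left (N + 2)).mul_pow, ← pow_mul, inv_pow,
      Nat.mul_comm (N + 2) (C + 2), ← he, pow_succ' b e, mul_assoc]
  have T : Cfg N C (P.toPth fun _ => rfl) (Q.toPth fun _ => rfl) b (b ^ (N + 2) * a⁻¹) := by
    refine ⟨(inv_mul_cancel_right _ _).symm, hgb.eq, ?_, ?_, fun j s _ => P.F_le _ s, ?_⟩
    · rw [hpow]
      have h1 : Le (b ^ e * (a ^ (C + 2))⁻¹) 1 := by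
        intro x
        obtain ⟨y, rfl⟩ := (a ^ (C + 2)).surjective x
        have h2 : (b ^ e * (a ^ (C + 2))⁻¹) ((a ^ (C + 2)) y) = (b ^ e) y := by
          rw [RelIso.mul_apply, RelIso.inv_apply_self]
        rw [h2]
        exact hk y
      have h2 := h1.left b
      rwa [mul_one] at h2
    · exact FPth.toCut2 h (fun _ => rfl) (fun _ => rfl)
    · intro i z hi hlt
      by_contra hne
      have h1 : Q.Dn (i + 1) z := by
        by_contra hd
        exact hne (FPth.not_dn hd)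
      exact absurd hlt (not_lt.mpr (Q.down i z hi h1))
  exact T.false z₀

/-- The reversed statement. -/
lemma rev_le {e c : ℕ} (hk : ∀ z, (b ^ e) z ≤ (a ^ c) z) (z : Jᵒᵈ) :
    (op b⁻¹ ^ e) z ≤ (op a⁻¹ ^ c) z := by
  rw [op_pow, op_pow]
  change (a⁻¹ ^ c) (OrderDual.ofDual z) ≤ (b⁻¹ ^ e) (OrderDual.ofDual z)
  have h1 := hk ((a⁻¹ ^ c) (OrderDual.ofDual z))
  rw [inv_pow, RelIso.apply_inv_self] at h1
  rw [inv_pow, inv_pow, ← (b ^ e).le_iff_le, RelIso.apply_inv_self]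
  exact h1

lemma rev_comm (hab : ∀ z, a (b z) = b (a z)) (z : Jᵒᵈ) :
    op a⁻¹ (op b⁻¹ z) = op b⁻¹ (op a⁻¹ z) := by
  change a⁻¹ (b⁻¹ (OrderDual.ofDual z)) = b⁻¹ (a⁻¹ (OrderDual.ofDual z))
  apply b.injective
  apply a.injective
  rw [RelIso.apply_inv_self, hab, RelIso.apply_inv_self, RelIso.apply_inv_self,
    RelIso.apply_inv_self]

/-- Two paths of the lengths `n` and `(c + 1) * n - 1`, in any order. -/
theorem two {c n m e : ℕ} (hn : 2 ≤ n) (hc : 1 ≤ c) (hnc : n = 2 → c ≠ 1)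
    (hm : m + 1 = (c + 1) * n) (he : e + 1 = c * n) (hk : ∀ z, (b ^ e) z ≤ (a ^ c) z)
    (hab : ∀ z, a (b z) = b (a z)) (P : FPth a b n (fun _ => 1)) (Q : FPth a b m (fun _ => 1))
    (h : P.Left Q ∨ Q.Left P) (z₀ : J) : False := by
  rcases Nat.lt_or_ge c 2 with h1 | h1
  · obtain rfl : c = 1 := by omega
    obtain ⟨k, rfl⟩ : ∃ k, n = k + 3 := ⟨n - 3, by omega⟩
    obtain rfl : e = k + 2 := by omega
    obtain rfl : m = 2 * k + 5 := by omega
    refine Pool.Agent.Helper31.T3.two (c := k) (fun z => ?_) hab P Q h z₀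
    have h2 := hk z
    rwa [pow_one] at h2
  · rcases h with h | h
    · exact two_aux hn h1 hm he hk hab P Q h z₀
    · exact two_aux hn h1 hm he (rev_le hk) (rev_comm hab) P.rev Q.rev (FPth.rev_left h)
        (OrderDual.toDual z₀)

/-- The statement with subtractions. -/
theorem blockB {n c : ℕ} (h2 : 2 ≤ n) (hc1 : 1 ≤ c) (hnc : ¬ (n = 2 ∧ c = 1))
    (hp : ∀ z, (b ^ (c * n - 1)) z ≤ (a ^ c) z) (hc : ∀ z, a (b z) = b (a z))
    (P : FPth a b n (fun _ => 1)) (Q : FPth a b ((c + 1) * n - 1) (fun _ => 1))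
    (h : P.Left Q ∨ Q.Left P) (z : J) : False := by
  have h3 : 0 < c * n := Nat.mul_pos (by omega) (by omega)
  have h4 : 0 < (c + 1) * n := Nat.mul_pos (by omega) (by omega)
  exact two h2 hc1 (fun h5 h6 => hnc ⟨h5, h6⟩) (Nat.sub_add_cancel h4) (Nat.sub_add_cancel h3) hp hc
    P Q h z

end Pool.Agent.Helper89.T4
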