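import Mathlib

/-!
The pointwise order on the order automorphisms of a linear order.
-/

set_option autoImplicit false

namespace Pool.Agent.Helper89.T4

variable {J : Type*} [LinearOrder J]

/-- `f x ≤ g x` at all points. -/
def Le (f g : J ≃o J) : Prop := ∀ x, f x ≤ g x

/-- `f x < g x` at all points. -/
def Lt (f g : J ≃o J) : Prop := ∀ x, f x < g x


variable {f g h f' g' : J ≃o J}

lemma mul_app (f g : J ≃o J) (x : J) : (f * g) x = f (g x) := rfl

lemma Le.rfl : Le f f := fun _ => le_rfl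
lemma Le.trans (h1 : Le f g) (h2 : Le g h) : Le f h := fun x => (h1 x).trans (h2 x)
lemma Le.trans_lt (h1 : Le f g) (h2 : Lt g h) : Lt f h := fun x => (h1 x).trans_lt (h2 x)
lemma Lt.trans_le (h1 : Lt f g) (h2 : Le g h) : Lt f h := fun x => (h1 x).trans_le (h2 x)
lemma Lt.trans (h1 : Lt f g) (h2 : Lt g h) : Lt f h := fun x => (h1 x).trans (h2 x)
lemma Lt.le (h1 : Lt f g) : Le f g := fun x => (h1 x).le

lemma Le.mul (h1 : Le f g) (h2 : Le f' g') : Le (f * f') (g * g') := fun x =>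
  (f.monotone (h2 x)).trans (h1 _)

lemma Lt.mul_le (h1 : Lt f g) (h2 : Le f' g') : Lt (f * f') (g * g') := fun x =>
  (f.monotone (h2 x)).trans_lt (h1 _)

lemma Le.mul_lt (h1 : Le f g) (h2 : Lt f' g') : Lt (f * f') (g * g') := fun x =>
  (f.strictMono (h2 x)).trans_le (h1 _)

lemma Le.left (h : J ≃o J) (h1 : Le f g) : Le (h * f) (h * g) := Le.rfl.mul h1
lemma Le.right (h1 : Le f g) (h : J ≃o J) : Le (f * h) (g * h) := h1.mul Le.rfl
lemma Lt.left (h : J ≃o J) (h1 : Lt f g) : Lt (h * f) (h * g) := Le.rfl.mul_lt h1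
lemma Lt.right (h1 : Lt f g) (h : J ≃o J) : Lt (f * h) (g * h) := h1.mul_le Le.rfl

lemma Le.inv (h1 : Le f g) : Le g⁻¹ f⁻¹ := by
  have h2 := (h1.left g⁻¹).right f⁻¹
  rwa [inv_mul_cancel, one_mul, mul_assoc, mul_inv_cancel, mul_one] at h2

lemma Lt.inv (h1 : Lt f g) : Lt g⁻¹ f⁻¹ := by
  have h2 := (h1.left g⁻¹).right f⁻¹
  rwa [inv_mul_cancel, one_mul, mul_assoc, mul_inv_cancel, mul_one] at h2

lemma Le.pow (h1 : Le f g) (n : ℕ) : Le (f ^ n) (g ^ n) := by
  induction n with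
  | zero => exact Le.rfl
  | succ n ih =>
    rw [pow_succ, pow_succ]
    exact ih.mul h1

lemma one_le_pow (h1 : Le 1 f) (n : ℕ) : Le 1 (f ^ n) := by
  have := h1.pow n
  rwa [one_pow] at this

lemma pow_le_pow (h1 : Le 1 f) {m n : ℕ} (hmn : m ≤ n) : Le (f ^ m) (f ^ n) := by
  obtain ⟨k, rfl⟩ := Nat.exists_eq_add_of_le hmn
  rw [pow_add]
  have := (one_le_pow h1 k).left (f ^ m)
  rwa [mul_one] at this

lemma Lt.pow (h1 : Lt f g) (n : ℕ) : Lt (f ^ (n + 1)) (g ^ (n + 1)) := by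
  rw [pow_succ, pow_succ]
  exact (h1.le.pow n).mul_lt h1

lemma Le.le_mul_right (h1 : Le 1 g) : Le f (f * g) := by
  have := h1.left f
  rwa [mul_one] at this

lemma Le.le_mul_left (h1 : Le 1 g) : Le f (g * f) := by
  have := h1.right f
  rwa [one_mul] at this

lemma Lt.lt_mul_right (h1 : Lt 1 g) : Lt f (f * g) := by
  have := h1.left f
  rwa [mul_one] at this

lemma Lt.lt_mul_left (h1 : Lt 1 g) : Lt f (g * f) := by
  have := h1.right f
  rwa [one_mul] at this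

lemma Le.mul_inv_le (h1 : Le f (g * h)) : Le (f * h⁻¹) g := by
  have := h1.right h⁻¹
  rwa [mul_assoc, mul_inv_cancel, mul_one] at this

lemma Le.le_mul_inv (h1 : Le (f * h) g) : Le f (g * h⁻¹) := by
  have := h1.right h⁻¹
  rwa [mul_assoc, mul_inv_cancel, mul_one] at this

/-- The inequality `(p * q) ^ (k + 2) > p * q ^ (k + 2)` for `p > 1`. -/
lemma word₁ {p q : J ≃o J} (hp : Lt 1 p) (k : ℕ) :
    Lt (p * q ^ (k + 2)) ((p * q) ^ (k + 2)) := by
  have h1 : Le (q ^ k) ((p * q) ^ k) := (Le.le_mul_left hp.le).pow k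
  have h2 : p * q ^ (k + 2) = p * q * (q ^ k * (1 * q)) := by
    rw [one_mul, pow_succ' q (k + 1), pow_succ]
    simp only [mul_assoc]
  have h3 : (p * q) ^ (k + 2) = p * q * ((p * q) ^ k * (p * q)) := by
    rw [pow_succ' (p * q) (k + 1), pow_succ]
  rw [h2, h3]
  exact (h1.mul_lt (hp.right q)).left _

/-- The inequality `(p * q) ^ (k + 1) ≥ p ^ (k + 1) * q` for `p, q ≥ 1`. -/
lemma word₂ {p q : J ≃o J} (hq : Le 1 q) (k : ℕ) :
    Le (p ^ (k + 1) * q) ((p * q) ^ (k + 1)) := by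
  rw [pow_succ, pow_succ, mul_assoc]
  exact ((Le.le_mul_right hq).pow k).right _

end Pool.Agent.Helper89.T4
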