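import Pool.Agent.Helper24.T3.Abs
import Pool.Agent.Helper89.T4.Ord

/-!
Two paths of the lengths `n` and `(c + 1) * n - 1` and a negative edge with
`b ^ (c * n - 1) ≤ a ^ c`; here `n = N + 2` and `c = C + 2`.
-/

set_option autoImplicit false

namespace Pool.Agent.Helper89.T4

open Pool.Agent.Helper24.T3

variable {J : Type*} [LinearOrder J] {a : J ≃o J}

/-- The flows of consecutive edges. -/
def traj {n : ℕ} (Q : Pth a n) (i : ℕ) : ℕ → J → J
  | 0, s => s
  | k + 1, s => Q.F (i + k + 1) (traj Q i k s)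

lemma le_traj {n : ℕ} (Q : Pth a n) (i k : ℕ) (s : J) (h : i + k ≤ n) :
    Q.h i s ≤ Q.h (i + k) (traj Q i k s) := by
  induction k with
  | zero => exact le_rfl
  | succ k ih => exact (ih (by omega)).trans (Q.step (i + k) _ (by omega))

/-- The configuration; `g = b ^ n / a`. -/
structure Cfg (N C : ℕ) (P : Pth a (N + 2)) (Q : Pth a ((C + 3) * (N + 1) + (C + 2)))
    (b g : J ≃o J) : Prop where
  ga : b ^ (N + 2) = g * a
  comm : g * b = b * g
  gc : Le (g ^ (C + 2)) b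
  cut : Cut2 b P Q
  pb : ∀ j s, j < N + 2 → P.F (j + 1) s ≤ b s
  flat : ∀ i z, i < (C + 3) * (N + 1) + (C + 2) → Q.h i z < Q.h (i + 1) z → Q.F (i + 1) z = z

namespace Cfg

variable {N C : ℕ} {P : Pth a (N + 2)} {Q : Pth a ((C + 3) * (N + 1) + (C + 2))} {b g : J ≃o J}

lemma pos : 0 < (C + 3) * (N + 1) + (C + 2) := by positivity

variable (S : Cfg N C P Q b g)
include S

lemma F1b (s : J) : P.F 1 s < b s :=
  (Q.fst _).trans_le (S.cut 0 0 s (by omega) pos (Or.inr (Or.inl ⟨rfl, rfl⟩)) ⟨by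
    rw [Q.top]
    exact P.hi 1 _ (by omega), by
    rw [P.top]
    exact Q.hi 1 _ pos⟩)

lemma b1 : Lt 1 b := fun s => (P.fst s).trans (S.F1b s)

/-- From the top. -/
lemma top_lt (j : ℕ) (hj : j < N + 2) : Lt a (P.h (j + 1) * b ^ (j + 1)) := by
  induction j with
  | zero =>
    intro s
    have h1 := P.step 0 s (by omega)
    rw [P.top] at h1
    refine h1.trans_lt ((P.h 1).strictMono ?_)
    rw [zero_add, pow_one]
    exact S.F1b s
  | succ j ih =>
    intro s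
    refine (ih (by omega) s).trans_le ((P.step (j + 1) _ (by omega)).trans
      ((P.h _).monotone ?_))
    rw [pow_succ' b (j + 1)]
    exact S.pb _ _ (by omega)

lemma top_le (j : ℕ) (hj : j ≤ N + 2) : Le a (P.h j * b ^ j) := by
  rcases Nat.eq_zero_or_pos j with rfl | h
  · intro s
    exact (P.top s).ge
  · obtain ⟨i, rfl⟩ : ∃ i, j = i + 1 := ⟨j - 1, by omega⟩
    exact (S.top_lt i (by omega)).le

lemma g1 : Lt 1 g := by
  have h1 := S.top_lt (N + 1) (by omega)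
  have h2 : P.h (N + 2) = 1 := by
    ext z
    exact P.bot z
  rw [h2, one_mul, S.ga] at h1
  have h3 := h1.right a⁻¹
  rwa [mul_inv_cancel, mul_assoc, mul_inv_cancel, mul_one] at h3

lemma gb : Le g b := by
  have := pow_le_pow S.g1.le (show 1 ≤ C + 2 by omega)
  rw [pow_one] at this
  exact this.trans S.gc

lemma gk (k : ℕ) (hk : k ≤ C + 2) : Le (g ^ k) b := (pow_le_pow S.g1.le hk).trans S.gc

lemma comm_b (m : ℕ) : g * b ^ m = b ^ m * g :=
  (Commute.pow_right (show Commute g b from S.comm) m).eq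

lemma comm_pow (k m : ℕ) : g ^ k * b ^ m = b ^ m * g ^ k :=
  (Commute.pow_pow (show Commute g b from S.comm) k m).eq

lemma comm_a : g * a = a * g := by
  have h1 := S.comm_b (N + 2)
  rw [S.ga, mul_assoc] at h1
  exact mul_left_cancel h1

lemma hup (j m : ℕ) (hjm : j + m = N + 2) : Le (P.h j) (b ^ m) := by
  induction m generalizing j with
  | zero =>
    obtain rfl : j = N + 2 := by omega
    intro x
    exact (P.bot x).le
  | succ m ih =>
    intro x
    have h1 := P.step j x (by omega)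
    have h2 := ih (j + 1) (by omega) (P.F (j + 1) x)
    refine h1.trans (h2.trans ?_)
    rw [pow_succ]
    exact (b ^ m).monotone (S.pb _ _ (by omega))

lemma hlo (j m : ℕ) (hjm : j + m = N + 2) : Le (b ^ m) (g * P.h j) := by
  have h1 := (S.top_le j (by omega)).left g
  have hb : b ^ (N + 2) = b ^ m * b ^ j := by
    rw [← pow_add]
    congr 1
    omega
  rw [← S.ga, hb, ← mul_assoc] at h1
  have h2 := h1.right (b ^ j)⁻¹
  rwa [mul_inv_cancel_right, mul_inv_cancel_right] at h2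

lemma hlo' (j m k : ℕ) (hjm : j + m + 1 = N + 2) (hk : k + 1 ≤ C + 2) :
    Le (b ^ m * g ^ k) (P.h j) := by
  have h1 := S.hlo j (m + 1) (by omega)
  have h2 : Le (g * (b ^ m * g ^ k)) (g * P.h j) := by
    refine Le.trans ?_ h1
    rw [← mul_assoc, S.comm_b, mul_assoc, ← pow_succ', pow_succ b]
    exact (S.gk _ hk).left _
  have h3 := h2.left g⁻¹
  rwa [inv_mul_cancel_left, inv_mul_cancel_left] at h3

lemma hlo'' (j m k : ℕ) (hjm : j + m + 2 = N + 2) (hk : k ≤ C + 2) :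
    Le (b ^ m * g ^ k) (P.h j) := by
  have h1 := S.hlo' j (m + 1) 0 (by omega) (by omega)
  rw [pow_zero, mul_one] at h1
  refine Le.trans ?_ h1
  rw [pow_succ]
  exact (S.gk _ hk).left _

lemma mono (t : J) : P.Mono t := by
  intro j hj
  obtain ⟨m, hm⟩ : ∃ m, j + m + 1 = N + 2 := ⟨N + 1 - j, by omega⟩
  have h1 := S.hlo' j m 0 hm (by omega)
  rw [pow_zero, mul_one] at h1
  exact (S.hup (j + 1) m (by omega) t).trans (h1 t)

/-- The room which the edge `j + 1` of `P` leaves. -/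
def Dl (_ : Cfg N C P Q b g) (j : ℕ) : J ≃o J := b * (P.h j)⁻¹ * P.h (j + 1)

lemma cutD (j i : ℕ) (t : J) (hj : j < N + 2) (hi : i < (C + 3) * (N + 1) + (C + 2))
    (h1 : P.h (j + 1) t ≤ Q.h i t) (h2 : Q.h (i + 1) t ≤ P.h j t) :
    Q.F (i + 1) t ≤ S.Dl j t := by
  obtain ⟨s, rfl⟩ := (P.F (j + 1)).surjective t
  refine (S.cut j i s hj hi (Or.inl (Or.inl (S.mono _))) ⟨h1, h2⟩).trans ?_
  change b s ≤ b ((P.h j)⁻¹ (P.h (j + 1) (P.F (j + 1) s)))
  refine b.monotone ?_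
  have h3 := (P.h j)⁻¹.monotone (P.step j s hj)
  have h4 : (P.h j)⁻¹ (P.h j s) = s := (P.h j).symm_apply_apply s
  rwa [h4] at h3

lemma Dl_one (j : ℕ) (hj : j < N + 2) : Lt 1 (S.Dl j) := by
  intro t
  change t < _
  have hex : ∃ i, Q.h i t ≤ P.h j t := ⟨(C + 3) * (N + 1) + (C + 2), by
    rw [Q.bot]
    exact P.lo j t (by omega)⟩
  classical
  obtain ⟨i, hi⟩ : ∃ i, Nat.find hex = i := ⟨_, rfl⟩
  have h1 : Q.h i t ≤ P.h j t := hi ▸ Nat.find_spec hex
  have hm : P.h (j + 1) t ≤ P.h j t := S.mono t j hj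
  have hiM : i ≤ (C + 3) * (N + 1) + (C + 2) := by
    rw [← hi]
    refine Nat.find_min' hex ?_
    rw [Q.bot]
    exact P.lo j t (by omega)
  rcases Nat.eq_zero_or_pos i with h0 | h0
  · subst h0
    rw [Q.top] at h1
    refine (Q.fst t).trans_le (S.cutD j 0 t hj pos ?_ ?_)
    · rw [Q.top]
      exact P.hi _ _ (by omega)
    · exact (Q.hi 1 t pos).trans h1
  · obtain ⟨l, rfl⟩ : ∃ l, i = l + 1 := ⟨i - 1, by omega⟩
    have h2 : P.h j t < Q.h l t := by
      by_contra hn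
      have := Nat.find_min' hex (not_lt.mp hn)
      omega
    exact (Q.str l t (by omega) (h1.trans_lt h2)).trans_le
      (S.cutD j l t hj (by omega) (hm.trans h2.le) h1)

/-- The heights, shifted. -/
def κ (_ : Cfg N C P Q b g) (j : ℕ) : J ≃o J := P.h j * b ^ j

/-- The deficits. -/
def p (S : Cfg N C P Q b g) (j : ℕ) : J ≃o J := (S.κ j)⁻¹ * S.κ (j + 1)

lemma Dl_eq (j : ℕ) : S.Dl j = b ^ (j + 1) * S.p j * (b ^ (j + 1))⁻¹ := by
  change b * (P.h j)⁻¹ * P.h (j + 1) =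
    b ^ (j + 1) * ((P.h j * b ^ j)⁻¹ * (P.h (j + 1) * b ^ (j + 1))) * (b ^ (j + 1))⁻¹
  rw [mul_inv_rev, pow_succ' b j]
  group

lemma p_eq (j : ℕ) : S.p j = (b ^ (j + 1))⁻¹ * S.Dl j * b ^ (j + 1) := by
  rw [S.Dl_eq]
  group

lemma p_one (j : ℕ) (hj : j < N + 2) : Lt 1 (S.p j) := by
  have h1 := ((S.Dl_one j hj).left (b ^ (j + 1))⁻¹).right (b ^ (j + 1))
  rw [mul_one, inv_mul_cancel, ← S.p_eq] at h1
  exact h1

lemma κ_lo (j : ℕ) (hj : j ≤ N + 2) : Le a (S.κ j) := S.top_le j hj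

lemma κ_hi (j : ℕ) (hj : j ≤ N + 2) : Le (S.κ j) (g * a) := by
  obtain ⟨m, hm⟩ : ∃ m, j + m = N + 2 := ⟨N + 2 - j, by omega⟩
  have hb : b ^ m * b ^ j = g * a := by
    rw [← pow_add, ← S.ga]
    congr 1
    omega
  have := (S.hup j m hm).right (b ^ j)
  rwa [hb] at this

lemma κκ (i j : ℕ) (hi : i ≤ N + 2) (hj : j ≤ N + 2) : Le ((S.κ i)⁻¹ * S.κ j) g := by
  have := (S.κ_lo i hi).inv.mul (S.κ_hi j hj)
  rwa [S.comm_a, inv_mul_cancel_left] at this

lemma p_le (j : ℕ) (hj : j < N + 2) : Le (S.p j) g := S.κκ j (j + 1) (by omega) (by omega)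

lemma pp_le (j : ℕ) (hj : j + 1 < N + 2) : Le (S.p j * S.p (j + 1)) g := by
  have := S.κκ j (j + 2) (by omega) (by omega)
  change Le ((S.κ j)⁻¹ * S.κ (j + 1) * ((S.κ (j + 1))⁻¹ * S.κ (j + 2))) g
  rwa [mul_assoc, mul_inv_cancel_left]

lemma Dl_le (j : ℕ) (hj : j < N + 2) : Le (S.Dl j) g := by
  rw [S.Dl_eq]
  have := ((S.p_le j hj).left (b ^ (j + 1))).right (b ^ (j + 1))⁻¹
  rwa [← S.comm_b, mul_inv_cancel_right] at this

lemma F_le (i : ℕ) (t : J) (hi : i < (C + 3) * (N + 1) + (C + 2)) : Q.F (i + 1) t ≤ g t := by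
  by_cases hfl : Q.h i t < Q.h (i + 1) t
  · rw [S.flat i t hi hfl]
    exact (S.g1 t).le
  have hdn := not_lt.mp hfl
  have hex : ∃ j, P.h j t ≤ Q.h i t := ⟨N + 2, by
    rw [P.bot]
    exact Q.lo i t (by omega)⟩
  classical
  obtain ⟨j, hj⟩ : ∃ j, Nat.find hex = j := ⟨_, rfl⟩
  have h1 : P.h j t ≤ Q.h i t := hj ▸ Nat.find_spec hex
  have hjM : j ≤ N + 2 := by
    rw [← hj]
    refine Nat.find_min' hex ?_
    rw [P.bot]
    exact Q.lo i t (by omega)
  rcases Nat.eq_zero_or_pos j with h0 | h0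
  · subst h0
    rw [P.top] at h1
    refine (S.cutD 0 i t (by omega) hi ?_ ?_).trans (S.Dl_le 0 (by omega) t)
    · exact (P.hi 1 t (by omega)).trans h1
    · rw [P.top]
      exact Q.hi _ _ (by omega)
  · obtain ⟨l, rfl⟩ : ∃ l, j = l + 1 := ⟨j - 1, by omega⟩
    have h2 : Q.h i t < P.h l t := by
      by_contra hn
      have := Nat.find_min' hex (not_lt.mp hn)
      omega
    exact (S.cutD l i t (by omega) hi h1 (hdn.trans h2.le)).trans (S.Dl_le l (by omega) t)

lemma traj_g (i k : ℕ) (s : J) (h : i + k ≤ (C + 3) * (N + 1) + (C + 2)) :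
    traj Q i k s ≤ (g ^ k) s := by
  induction k with
  | zero => exact le_rfl
  | succ k ih =>
    rw [pow_succ']
    exact (S.F_le (i + k) _ (by omega)).trans (g.monotone (ih (by omega)))

omit S in
lemma traj_le {D : J ≃o J} (i k : ℕ) (s : J)
    (h : ∀ l < k, Q.F (i + l + 1) (traj Q i l s) ≤ D (traj Q i l s)) :
    traj Q i k s ≤ (D ^ k) s := by
  induction k with
  | zero => exact le_rfl
  | succ k ih =>
    rw [pow_succ']
    exact (h k (by omega)).trans (D.monotone (ih fun l hl => h l (by omega)))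

omit S in
lemma traj_add (i k l : ℕ) (s : J) : traj Q i (k + l) s = traj Q (i + k) l (traj Q i k s) := by
  induction l with
  | zero => rfl
  | succ l ih =>
    change Q.F (i + (k + l) + 1) (traj Q i (k + l) s) = Q.F (i + k + l + 1) _
    rw [ih, show i + (k + l) + 1 = i + k + l + 1 by omega]

/-- More edges. -/
lemma more (m i k : ℕ) (h : ∀ x, Q.h (i + k) x ≤ (b ^ m) x)
    (hk : i + k ≤ (C + 3) * (N + 1) + (C + 2)) : Le (Q.h i) (b ^ m * g ^ k) := fun x =>
  (le_traj Q i k x hk).trans ((h _).trans ((b ^ m).monotone (S.traj_g i k x hk)))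

end Cfg

end Pool.Agent.Helper89.T4
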