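import Pool.Agent.Helper89.T4.GenC

/-!
The end of the proof for two paths of the lengths `n` and `(c + 1) * n - 1`.
-/

set_option autoImplicit false

namespace Pool.Agent.Helper89.T4

open Pool.Agent.Helper24.T3

variable {J : Type*} [LinearOrder J]

section words

variable {b g p q γ η : J ≃o J}

lemma swap_one {η γ : J ≃o J} (h : Le (γ * η) (η * γ)) (k : ℕ) : Le (γ * η ^ k) (η ^ k * γ) := by
  induction k with
  | zero =>
    rw [pow_zero, mul_one, one_mul]
    exact Le.rfl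
  | succ k ih =>
    have h1 := ih.right η
    rw [mul_assoc, ← pow_succ, mul_assoc] at h1
    refine h1.trans ?_
    have h2 := h.left (η ^ k)
    rwa [← mul_assoc (η ^ k) η γ, ← pow_succ] at h2

lemma swap_pow {η γ : J ≃o J} (h : Le (γ * η) (η * γ)) (k : ℕ) : Le (γ ^ k * η ^ k) ((η * γ) ^ k) := by
  induction k with
  | zero => exact Le.rfl
  | succ k ih =>
    have h1 := ih.right (η * γ)
    rw [← pow_succ] at h1
    refine Le.trans ?_ h1
    have h2 := (swap_one h (k + 1)).left (γ ^ k)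
    rw [← mul_assoc, ← pow_succ, pow_succ η k] at h2
    rw [pow_succ η k]
    convert h2 using 1
    simp only [mul_assoc]

/-- The last contradiction. -/
lemma word₃ {γ η : J ≃o J} (s : J) (hγ : Lt 1 γ) (hη : Lt 1 η) (C : ℕ)
    (h : Le ((η * γ) ^ (C + 1) * (η ^ (C + 2))⁻¹ * (γ * (η * γ) ^ C * η)) (γ ^ (C + 1))) : False := by
  set v := γ * (η * γ) ^ C * η with hv
  have hA : Lt v (η * γ ^ (C + 1)) := by
    intro s
    by_contra hn
    have hn := not_lt.mp hn
    set p := (γ ^ (C + 1)) s with hp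
    have h1 := h s
    have h2 : (η ^ (C + 1))⁻¹ p ≤ (η ^ (C + 2))⁻¹ (v s) := by
      have h3 := (η ^ (C + 2))⁻¹.monotone hn
      refine le_trans (le_of_eq ?_) h3
      have e : (η ^ (C + 2))⁻¹ * η = (η ^ (C + 1))⁻¹ := by
        rw [pow_succ' η (C + 1), mul_inv_rev, inv_mul_cancel_right]
      rw [← e]
      rfl
    have h4 : (η ^ (C + 1)) ((η ^ (C + 1))⁻¹ p) = p := (η ^ (C + 1)).apply_symm_apply p
    have h5 : Lt (η ^ (C + 1)) ((η * γ) ^ (C + 1)) := (Lt.lt_mul_right hγ).pow C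
    have h6 := h5 ((η ^ (C + 1))⁻¹ p)
    rw [h4] at h6
    exact absurd (h6.trans_le (((η * γ) ^ (C + 1)).monotone h2)) (not_lt.mpr h1)
  have hK : Le (γ * η) (η * γ) := by
    have h1 : Le (γ * η * γ ^ C) v := by
      rw [hv, mul_assoc, mul_assoc]
      refine Le.left γ ?_
      have h2 : (η * γ) ^ C * η = η * (γ * η) ^ C := by
        have := (SemiconjBy.pow_right (show SemiconjBy η (γ * η) (η * γ) by
          change η * (γ * η) = η * γ * η
          rw [mul_assoc]) C).eq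
        exact this.symm
      rw [h2]
      exact ((Le.le_mul_right hη.le).pow C).left η
    have h3 := (h1.trans hA.le).right (γ ^ C)⁻¹
    rwa [mul_inv_cancel_right, pow_succ', ← mul_assoc, mul_inv_cancel_right] at h3
  have h1 := swap_pow hK (C + 1)
  have h2 : Lt η v := by
    have h3 : Lt 1 (γ * (η * γ) ^ C) := by
      have h0 : Le η (η * γ) := Le.le_mul_right hγ.le
      have := hγ.mul_le (one_le_pow (hη.le.trans h0) C)
      rwa [one_mul] at this
    have := h3.right η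
    rwa [one_mul] at this
  have h4 : Lt (γ ^ (C + 1)) (γ ^ (C + 1) * η ^ (C + 1) * (η ^ (C + 2))⁻¹ * v) := by
    have h5 : η ^ (C + 1) * (η ^ (C + 2))⁻¹ = η⁻¹ := by
      rw [pow_succ' η (C + 1), mul_inv_rev, mul_inv_cancel_left]
    rw [mul_assoc (γ ^ (C + 1)), h5, mul_assoc]
    have h6 := h2.left η⁻¹
    rw [inv_mul_cancel] at h6
    have h7 := h6.left (γ ^ (C + 1))
    rwa [mul_one] at h7
  exact absurd ((h4 s).trans_le ((((h1.right _).right v) s).trans (h s))) (lt_irrefl _)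

end words

namespace Cfg

variable {a : J ≃o J} {N C : ℕ} {P : Pth a (N + 2)} {Q : Pth a ((C + 3) * (N + 1) + (C + 2))}
  {b g : J ≃o J}
variable (S : Cfg N C P Q b g)
include S

lemma Dl_pow (j k : ℕ) : S.Dl j ^ k = b ^ (j + 1) * S.p j ^ k * (b ^ (j + 1))⁻¹ := by
  rw [S.Dl_eq, conj_pow]

lemma Dl_Dl (j k l : ℕ) : S.Dl (j + 1) ^ k * S.Dl j ^ l =
    b ^ (j + 2) * (S.p (j + 1) ^ k * b⁻¹ * S.p j ^ l) * (b ^ (j + 1))⁻¹ := by
  rw [S.Dl_pow, S.Dl_pow]
  have h1 : (b ^ (j + 1 + 1))⁻¹ * b ^ (j + 1) = b⁻¹ := by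
    rw [pow_succ, mul_inv_rev, inv_mul_cancel_right]
  calc b ^ (j + 1 + 1) * S.p (j + 1) ^ k * (b ^ (j + 1 + 1))⁻¹ *
      (b ^ (j + 1) * S.p j ^ l * (b ^ (j + 1))⁻¹)
      = b ^ (j + 1 + 1) * S.p (j + 1) ^ k * ((b ^ (j + 1 + 1))⁻¹ * b ^ (j + 1)) * S.p j ^ l *
        (b ^ (j + 1))⁻¹ := by simp only [mul_assoc]
    _ = _ := by
      rw [h1]
      simp only [mul_assoc]

/-- The first edge in the zone `j`, the others in the zone `j + 1`. -/
lemma key₁ (j : ℕ) (hj : j + 1 < N + 2) : Lt (S.Dl (j + 1) ^ (C + 2) * S.Dl j) b := by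
  have h1 : Lt (S.p j * S.p (j + 1) ^ (C + 2)) b :=
    (word₁ (S.p_one j (by omega)) C).trans_le
      (((S.pp_le j hj).pow (C + 2)).trans S.gc)
  have h2 : Lt (S.p (j + 1) ^ (C + 2) * b⁻¹ * S.p j ^ 1) 1 := by
    rw [pow_one]
    have h3 := ((h1.left b⁻¹).right (S.p (j + 1) ^ (C + 2))⁻¹).left (S.p (j + 1) ^ (C + 2))
    rw [inv_mul_cancel, one_mul, mul_inv_cancel, ← mul_assoc b⁻¹, mul_inv_cancel_right,
      ← mul_assoc] at h3
    exact h3
  have h3 := S.Dl_Dl j (C + 2) 1
  rw [pow_one] at h3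
  rw [h3, pow_one]
  rw [pow_one] at h2
  have h4 := (h2.left (b ^ (j + 2))).right (b ^ (j + 1))⁻¹
  rwa [mul_one, pow_succ' b (j + 1), mul_inv_cancel_right, ← pow_succ'] at h4

/-- The last edge in the zone `j + 1`, the others in the zone `j`. -/
lemma key₂ (j : ℕ) (hj : j + 1 < N + 2) : Le (S.Dl (j + 1) * S.Dl j ^ (C + 2)) b := by
  have h1 : Le (S.p j ^ (C + 2) * S.p (j + 1)) b :=
    (word₂ (S.p_one (j + 1) hj).le (C + 1)).trans (((S.pp_le j hj).pow (C + 2)).trans S.gc)
  have h2 : Le (S.p (j + 1) * b⁻¹ * S.p j ^ (C + 2)) 1 := by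
    have h3 := ((h1.left b⁻¹).right (S.p (j + 1))⁻¹).left (S.p (j + 1))
    rw [inv_mul_cancel, one_mul, mul_inv_cancel, ← mul_assoc b⁻¹, mul_inv_cancel_right,
      ← mul_assoc] at h3
    exact h3
  have h3 := S.Dl_Dl j 1 (C + 2)
  rw [pow_one, pow_one] at h3
  rw [h3]
  have h4 := (h2.left (b ^ (j + 2))).right (b ^ (j + 1))⁻¹
  rwa [mul_one, pow_succ' b (j + 1), mul_inv_cancel_right, ← pow_succ'] at h4

/-- The last `(C + 3) * m` edges of `Q`. -/
lemma zup (m : ℕ) (hm : m ≤ N + 1) : ∀ i, i + (C + 3) * m = (C + 3) * (N + 1) + (C + 2) →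
    Le (Q.h i) (b ^ m) := by
  induction m with
  | zero =>
    intro i hi x
    obtain rfl : i = (C + 3) * (N + 1) + (C + 2) := by omega
    rw [Q.bot]
    exact le_rfl
  | succ m ih =>
    intro i hi x
    by_contra hn
    have hn := not_le.mp hn
    have e1 : (C + 3) * (m + 1) = (C + 3) * m + (C + 3) := by ring
    have hend := ih (by omega) (i + (C + 3)) (by omega)
    obtain ⟨v, hv⟩ : ∃ v, v + 1 + (m + 1) = N + 2 := ⟨N - m, by omega⟩
    set t := Q.F (i + 1) x with ht
    have h1 : t ≤ S.Dl v x := by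
      refine S.cutD v i x (by omega) (by omega) ((S.hup (v + 1) (m + 1) hv x).trans hn.le) ?_
      exact (S.more m (i + 1) (C + 2) (by
        rw [show i + 1 + (C + 2) = i + (C + 3) by omega]
        exact hend) (by omega) x).trans (S.hlo'' v m (C + 2) (by omega) le_rfl x)
    have h2 : traj Q (i + 1) (C + 2) t ≤ (S.Dl (v + 1) ^ (C + 2)) t := by
      refine traj_le (i + 1) (C + 2) t fun l hl => ?_
      have h3 : traj Q (i + 1) l t = traj Q i (1 + l) x := (traj_add i 1 l x).symm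
      refine S.cutD (v + 1) (i + 1 + l) _ (by omega) (by omega) ?_ ?_
      · refine (S.hup (v + 1 + 1) m (by omega) _).trans ?_
        rw [h3, show i + 1 + l = i + (1 + l) by omega]
        refine le_trans ?_ (hn.le.trans (le_traj Q i (1 + l) x (by omega)))
        rw [pow_succ b m]
        exact (b ^ m).monotone ((S.traj_g i (1 + l) x (by omega)).trans
          (S.gk (1 + l) (by omega) x))
      · obtain ⟨k, hk⟩ : ∃ k, l + k = C + 1 := ⟨C + 1 - l, by omega⟩
        exact (S.more m (i + 1 + l + 1) k (by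
          rw [show i + 1 + l + 1 + k = i + (C + 3) by omega]
          exact hend) (by omega) _).trans (S.hlo' (v + 1) m k (by omega) (by omega) _)
    have h4 : Q.h i x ≤ (b ^ m) (traj Q (i + 1) (C + 2) t) := by
      refine (Q.step i x (by omega)).trans ((le_traj Q (i + 1) (C + 2) _ (by omega)).trans ?_)
      rw [show i + 1 + (C + 2) = i + (C + 3) by omega]
      exact hend _
    have h5 := S.key₁ v (by omega) x
    have h6 : traj Q (i + 1) (C + 2) t < b x :=
      (h2.trans ((S.Dl (v + 1) ^ (C + 2)).monotone h1)).trans_lt h5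
    have h7 := (b ^ m).strictMono h6
    rw [← mul_app, ← pow_succ] at h7
    exact absurd (hn.trans_le h4) (not_lt.mpr h7.le)

/-- `z ((C + 3) * j) < w j`. -/
lemma zw (v : ℕ) (hv : v + 1 < N + 2) : Lt (Q.h ((C + 3) * (v + 1))) (P.h (v + 1)) := by
  intro t
  by_contra hn
  have hn := not_lt.mp hn
  obtain ⟨m, hm⟩ : ∃ m, v + 1 + m + 1 = N + 2 := ⟨N - v, by omega⟩
  set i := (C + 3) * (v + 1) with hi
  have e1 : i + (C + 2) + (C + 3) * m = (C + 3) * (N + 1) + (C + 2) := by
    have : N = v + m := by omega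
    subst this
    rw [hi]
    ring
  have hend := S.zup m (by omega) (i + (C + 2)) e1
  have h1 : Q.F (i + 1) t ≤ S.Dl v t := by
    refine S.cutD v i t (by omega) (by omega) hn ?_
    exact (S.more m (i + 1) (C + 1) (by
      rw [show i + 1 + (C + 1) = i + (C + 2) by omega]
      exact hend) (by omega) t).trans (S.hlo'' v m (C + 1) (by omega) (by omega) t)
  have h2 : traj Q (i + 1) (C + 1) (Q.F (i + 1) t) ≤
      (S.Dl (v + 1) ^ (C + 1)) (Q.F (i + 1) t) := by
    refine traj_le (i + 1) (C + 1) _ fun l hl => ?_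
    have h3 : traj Q (i + 1) l (Q.F (i + 1) t) = traj Q i (1 + l) t := (traj_add i 1 l t).symm
    refine S.cutD (v + 1) (i + 1 + l) _ (by omega) (by omega) ?_ ?_
    · refine (S.hup (v + 1 + 1) m (by omega) _).trans ?_
      rw [h3, show i + 1 + l = i + (1 + l) by omega]
      refine le_trans ?_ (hn.trans (le_traj Q i (1 + l) t (by omega)))
      refine le_trans ?_ (S.hlo' (v + 1) m (1 + l) (by omega) (by omega) t)
      exact (b ^ m).monotone (S.traj_g i (1 + l) t (by omega))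
    · obtain ⟨k, hk⟩ : ∃ k, l + k = C := ⟨C - l, by omega⟩
      exact (S.more m (i + 1 + l + 1) k (by
        rw [show i + 1 + l + 1 + k = i + (C + 2) by omega]
        exact hend) (by omega) _).trans (S.hlo' (v + 1) m k (by omega) (by omega) _)
  have h4 : Q.h i t ≤ (b ^ m) (traj Q (i + 1) (C + 1) (Q.F (i + 1) t)) := by
    refine (Q.step i t (by omega)).trans ((le_traj Q (i + 1) (C + 1) _ (by omega)).trans ?_)
    rw [show i + 1 + (C + 1) = i + (C + 2) by omega]
    exact hend _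
  have h5 : P.h (v + 1) t ≤ (b ^ m * (S.Dl (v + 1) ^ (C + 1) * S.Dl v)) t :=
    hn.trans (h4.trans ((b ^ m).monotone
      (h2.trans ((S.Dl (v + 1) ^ (C + 1)).monotone h1))))
  -- the word
  have h6 : b ^ m * (S.Dl (v + 1) ^ (C + 1) * S.Dl v) =
      g * a * S.p (v + 1) ^ (C + 1) * b⁻¹ * (S.κ v)⁻¹ * P.h (v + 1) := by
    have h7 := S.Dl_Dl v (C + 1) 1
    rw [pow_one, pow_one] at h7
    rw [h7, ← S.ga]
    have h8 : S.p v = (S.κ v)⁻¹ * (P.h (v + 1) * b ^ (v + 1)) := rfl
    have h9 : b ^ (N + 2) = b ^ m * b ^ (v + 2) := by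
      rw [← pow_add]
      congr 1
      omega
    rw [h8, h9]
    simp only [mul_assoc, mul_inv_cancel, mul_one]
  rw [h6] at h5
  have h10 : Lt (g * a * S.p (v + 1) ^ (C + 1) * b⁻¹ * (S.κ v)⁻¹) 1 := by
    have h11 : Lt (S.p (v + 1)) g :=
      (Lt.lt_mul_left (S.p_one v (by omega))).trans_le (S.pp_le v hv)
    have h12 : Lt (g * S.p (v + 1) ^ (C + 1)) b := by
      refine ((h11.pow C).left g).trans_le ?_
      rw [← pow_succ']
      exact S.gc
    have h13 := (S.κ_lo v (by omega)).inv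
    have h14 := h13.left (g * a * S.p (v + 1) ^ (C + 1) * b⁻¹)
    refine h14.trans_lt ?_
    have h15 := ((h12.right b⁻¹).left a).right a⁻¹
    rw [mul_inv_cancel, mul_one, mul_inv_cancel] at h15
    rw [S.comm_a]
    simpa only [mul_assoc] using h15
  exact absurd (h5.trans_lt (h10 _)) (lt_irrefl _)

end Cfg

end Pool.Agent.Helper89.T4
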