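import Pool.Agent.Helper89.T4.GenD

/-!
Two paths of the lengths `n` and `(c + 1) * n - 1`: the contradiction.
-/

set_option autoImplicit false

namespace Pool.Agent.Helper89.T4

open Pool.Agent.Helper24.T3

variable {J : Type*} [LinearOrder J] {a : J ≃o J} {N C : ℕ} {P : Pth a (N + 2)}
  {Q : Pth a ((C + 3) * (N + 1) + (C + 2))} {b g : J ≃o J}

lemma traj_surj {n : ℕ} (Q : Pth a n) (i k : ℕ) (t : J) : ∃ r, traj Q i k r = t := by
  induction k generalizing t with
  | zero => exact ⟨t, rfl⟩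
  | succ k ih =>
    obtain ⟨t', ht⟩ := (Q.F (i + k + 1)).surjective t
    obtain ⟨r, hr⟩ := ih t'
    refine ⟨r, ?_⟩
    change Q.F (i + k + 1) (traj Q i k r) = t
    rw [hr, ht]

namespace Cfg

variable (S : Cfg N C P Q b g)
include S

/-- The first `(C + 3) * m` edges of `Q`. -/
lemma down (m : ℕ) (hm : m ≤ N + 1) : Le a (Q.h ((C + 3) * m) * b ^ m) := by
  induction m with
  | zero =>
    intro s
    exact (Q.top s).ge
  | succ m ih =>
    intro s
    have e1 : (C + 3) * (m + 1) = (C + 3) * m + (C + 3) := by ring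
    obtain ⟨m', hm'⟩ : ∃ m', m + (m' + 1) = N + 1 := ⟨N - m, by omega⟩
    rw [e1]
    have e0 := S.zw m (by omega)
    rw [e1] at e0
    have e2 : (C + 3) * m + (C + 2) + (C + 3) * (m' + 1) = (C + 3) * (N + 1) + (C + 2) := by
      rw [← hm']
      ring
    have e3 : (C + 3) * (m' + 1) = (C + 3) * m' + (C + 3) := by ring
    have h0 := ih (by omega) s
    generalize (C + 3) * m = i at e0 e2 h0 ⊢
    have hend := S.zup (m' + 1) (by omega) (i + (C + 2)) e2
    obtain ⟨t, ht⟩ : ∃ t, t = (b ^ m) s := ⟨_, rfl⟩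
    have h0 : a s ≤ Q.h i t := by
      rw [ht]
      exact h0
    have hga : ∀ k l x, k + l + m = N + 2 → g x ≤ (b ^ l) t → (b ^ k) x ≤ a s := by
      intro k l x hkl hx
      have h1 : g ((b ^ k) x) ≤ g (a s) := by
        have h2 : g (a s) = (b ^ (N + 2)) s := by
          rw [S.ga]
          rfl
        have h3 : (b ^ (N + 2)) s = (b ^ k) ((b ^ l) t) := by
          rw [ht, ← mul_app, ← mul_app, ← pow_add, ← pow_add]
          congr 2
          omega
        rw [h2, h3, ← mul_app g, S.comm_b k, mul_app]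
        exact (b ^ k).monotone hx
      exact g.le_iff_le.mp h1
    have h1 : traj Q i (C + 2) t ≤ (S.Dl m ^ (C + 2)) t := by
      refine traj_le i (C + 2) t fun l hl => ?_
      refine S.cutD m (i + l) _ (by omega) (by omega) ?_ ?_
      · refine (S.hup (m + 1) (m' + 1) (by omega) _).trans ?_
        refine (hga (m' + 1) 1 _ (by omega) ?_).trans (h0.trans (le_traj Q i l t (by omega)))
        rw [pow_one]
        refine (g.monotone (S.traj_g i l t (by omega))).trans ?_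
        rw [← mul_app, ← pow_succ']
        exact S.gk (l + 1) (by omega) t
      · obtain ⟨k, hk⟩ : ∃ k, l + k = C + 1 := ⟨C + 1 - l, by omega⟩
        exact (S.more (m' + 1) (i + l + 1) k (by
          rw [show i + l + 1 + k = i + (C + 2) by omega]
          exact hend) (by omega) _).trans (S.hlo' m (m' + 1) k (by omega) (by omega) _)
    obtain ⟨τ, hτ⟩ : ∃ τ, τ = traj Q i (C + 2) t := ⟨_, rfl⟩
    have h2 : Q.F (i + (C + 2) + 1) τ ≤ S.Dl (m + 1) τ := by
      refine S.cutD (m + 1) (i + (C + 2)) τ (by omega) (by omega) ?_ (e0 τ).le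
      refine (S.hup (m + 1 + 1) m' (by omega) _).trans ?_
      have h3 : a s ≤ Q.h (i + (C + 2)) τ := by
        rw [hτ]
        exact h0.trans (le_traj Q i (C + 2) t (by omega))
      refine (hga m' 2 _ (by omega) ?_).trans h3
      rw [hτ, pow_two, mul_app]
      exact (g.monotone ((S.traj_g i (C + 2) t (by omega)).trans (S.gc t))).trans (S.gb _)
    have h3 : Q.F (i + (C + 2) + 1) τ ≤ b t := by
      refine h2.trans (((S.Dl (m + 1)).monotone ?_).trans (S.key₂ m (by omega) t))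
      rw [hτ]
      exact h1
    change a s ≤ Q.h (i + (C + 3)) ((b ^ (m + 1)) s)
    rw [pow_succ' b m, mul_app, ← ht]
    refine (h0.trans (le_traj Q i (C + 3) t (by omega))).trans ((Q.h _).monotone ?_)
    change Q.F (i + (C + 2) + 1) (traj Q i (C + 2) t) ≤ b t
    rw [← hτ]
    exact h3

/-- The room in the zone before the last one. -/
def γ (_ : Cfg N C P Q b g) : J ≃o J := g * b⁻¹ * P.h (N + 1)

/-- The room in the last zone. -/
def η (_ : Cfg N C P Q b g) : J ≃o J := (P.h (N + 1))⁻¹ * b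

lemma γη : S.γ * S.η = g := by
  change g * b⁻¹ * P.h (N + 1) * ((P.h (N + 1))⁻¹ * b) = g
  rw [mul_assoc _ (P.h (N + 1)), mul_inv_cancel_left, inv_mul_cancel_right]

lemma x_eq : P.h (N + 1) = b * S.η⁻¹ := by
  change P.h (N + 1) = b * ((P.h (N + 1))⁻¹ * b)⁻¹
  rw [mul_inv_rev, inv_inv, mul_inv_cancel_left]

lemma Dl_N : Le (S.Dl N) S.γ := by
  have h1 := (S.hlo N 2 rfl).left g⁻¹
  rw [inv_mul_cancel_left] at h1
  have h2 := (h1.inv.left b).right (P.h (N + 1))
  refine h2.trans (le_of_eq_app ?_)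
  change b * (g⁻¹ * b ^ 2)⁻¹ * P.h (N + 1) = g * b⁻¹ * P.h (N + 1)
  congr 1
  rw [mul_inv_rev, inv_inv, pow_two, mul_inv_rev, mul_assoc, mul_inv_cancel_left]
  have h3 : Commute g b⁻¹ := (show Commute g b from S.comm).inv_right
  exact h3.eq.symm
where
  le_of_eq_app {f g : J ≃o J} (h : f = g) : Le f g := h ▸ Le.rfl

lemma Dl_last : S.Dl (N + 1) = b * S.η * b⁻¹ := by
  change b * (P.h (N + 1))⁻¹ * P.h (N + 2) = b * ((P.h (N + 1))⁻¹ * b) * b⁻¹
  have h2 : P.h (N + 2) = 1 := by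
    ext z
    exact P.bot z
  rw [h2, mul_one, ← mul_assoc, mul_inv_cancel_right]

lemma γ_one : Lt 1 S.γ := (S.Dl_one N (by omega)).trans_le S.Dl_N

lemma η_one : Lt 1 S.η := by
  have h1 := ((S.Dl_one (N + 1) (by omega)).left b⁻¹).right b
  rw [S.Dl_last, mul_one, inv_mul_cancel, mul_assoc b, inv_mul_cancel_left,
    inv_mul_cancel_right] at h1
  exact h1

lemma γ_lt : Lt S.γ g := by
  have := Lt.lt_mul_right (f := S.γ) S.η_one
  rwa [S.γη] at this

lemma γη_lt : Lt (S.γ * S.η ^ (C + 2)) b := by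
  have h1 := word₁ (q := S.η) S.γ_one C
  rw [S.γη] at h1
  exact h1.trans_le S.gc

/-- The edges which meet the zone before the last one. -/
lemma ruleU (l : ℕ) (hl : l ≤ 2 * C + 4) (t : J)
    (h : P.h (N + 1) t ≤ Q.h ((C + 3) * N + l) t) : Q.F ((C + 3) * N + l + 1) t ≤ S.γ t := by
  have eM : (C + 3) * (N + 1) + (C + 2) = (C + 3) * N + 2 * C + 5 := by ring
  have hend : Le (Q.h ((C + 3) * N + (C + 2))) (b ^ 1) := S.zup 1 (by omega) _ (by ring)
  refine (S.cutD N _ t (by omega) (by omega) h ?_).trans (S.Dl_N t)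
  generalize (C + 3) * N = i at eM hend ⊢
  by_cases h1 : l ≤ C + 1
  · obtain ⟨k, hk⟩ : ∃ k, l + k = C + 1 := ⟨C + 1 - l, by omega⟩
    exact (S.more 1 (i + l + 1) k (by
      rw [show i + l + 1 + k = i + (C + 2) by omega]
      exact hend) (by omega) t).trans (S.hlo' N 1 k rfl (by omega) t)
  · obtain ⟨k, hk⟩ : ∃ k, l + k = 2 * C + 4 := ⟨2 * C + 4 - l, by omega⟩
    have h2 : ∀ x, Q.h (i + l + 1 + k) x ≤ (b ^ 0) x := by
      intro x
      have : i + l + 1 + k = (C + 3) * (N + 1) + (C + 2) := by omega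
      rw [this, Q.bot]
      exact le_rfl
    exact (S.more 0 (i + l + 1) k h2 (by omega) t).trans (S.hlo'' N 0 k rfl (by omega) t)

/-- The edges which meet the last zone. -/
lemma ruleV (l : ℕ) (hl : l ≤ 2 * C + 4) (t : J)
    (h : Q.h ((C + 3) * N + l + 1) t ≤ P.h (N + 1) t) :
    Q.F ((C + 3) * N + l + 1) t ≤ S.Dl (N + 1) t := by
  have eM : (C + 3) * (N + 1) + (C + 2) = (C + 3) * N + 2 * C + 5 := by ring
  refine S.cutD (N + 1) _ t (by omega) (by omega) ?_ h
  change P.h (N + 2) t ≤ _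
  rw [P.bot]
  exact Q.lo _ _ (by omega)

/-- From the top of `Q`. -/
lemma v₀ : Le (b * b) (g * Q.h ((C + 3) * N)) := by
  have h1 := ((S.down N (by omega)).left g).right (b ^ N)⁻¹
  rw [← S.ga, ← mul_assoc, mul_inv_cancel_right, pow_succ, pow_succ, mul_assoc (b ^ N), 
    ← pow_two, (Commute.refl b).pow_pow N 2 |>.eq, mul_inv_cancel_right, pow_two] at h1
  exact h1

/-- The first vertices are above the last inner vertex of `P`. -/
lemma upper (l : ℕ) (hl : l ≤ C + 1) : Lt (P.h (N + 1)) (Q.h ((C + 3) * N + l)) := by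
  induction l using Nat.strong_induction_on with
  | _ l ih =>
  intro t
  by_contra hn
  have hn := not_lt.mp hn
  have eM : (C + 3) * (N + 1) + (C + 2) = (C + 3) * N + 2 * C + 5 := by ring
  obtain ⟨r, hr⟩ := traj_surj Q ((C + 3) * N) l t
  have h1 : t ≤ (S.γ ^ l) r := by
    rw [← hr]
    exact traj_le _ l r fun k hk => S.ruleU k (by omega) _ ((ih k hk (by omega)) _).le
  have h2 : Q.h ((C + 3) * N) r ≤ P.h (N + 1) ((S.γ ^ l) r) := by
    refine ((le_traj Q _ l r (by omega)).trans ?_).trans ((P.h (N + 1)).monotone h1)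
    rw [hr]
    exact hn
  have h3 : (b * b) r ≤ (g * P.h (N + 1) * S.γ ^ l) r := (S.v₀ r).trans (g.monotone h2)
  have h4 : Lt (g * P.h (N + 1) * S.γ ^ l) (b * b) := by
    have h5 : g * P.h (N + 1) * S.γ ^ l = b * S.γ ^ (l + 1) := by
      rw [pow_succ']
      change g * P.h (N + 1) * S.γ ^ l = b * (g * b⁻¹ * P.h (N + 1) * S.γ ^ l)
      have h6 : b * (g * b⁻¹) = g := by
        rw [← mul_assoc, ← S.comm, mul_inv_cancel_right]
      rw [← mul_assoc, ← mul_assoc b (g * b⁻¹), h6]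
    rw [h5]
    exact ((S.γ_lt.pow l).trans_le (S.gk (l + 1) (by omega))).left b
  exact absurd (h3.trans_lt (h4 r)) (lt_irrefl _)

/-- The last vertices are below the last inner vertex of `P`. -/
lemma lower (k : ℕ) (hk : k ≤ C + 2) : ∀ l, l + k = 2 * C + 5 →
    Lt (Q.h ((C + 3) * N + l)) (P.h (N + 1)) := by
  have eM : (C + 3) * (N + 1) + (C + 2) = (C + 3) * N + 2 * C + 5 := by ring
  induction k using Nat.strong_induction_on with
  | _ k ih =>
  intro l hl t
  rcases Nat.eq_zero_or_pos k with rfl | hk0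
  · have h1 : (C + 3) * N + l = (C + 3) * (N + 1) + (C + 2) := by omega
    rw [h1, Q.bot]
    have h2 := S.hlo' (N + 1) 0 (C + 1) rfl le_rfl
    rw [pow_zero, one_mul] at h2
    exact ((S.g1.pow C).trans_le h2) t |>.trans_eq' (by rw [one_pow]; rfl)
  · obtain ⟨k, rfl⟩ : ∃ k', k = k' + 1 := ⟨k - 1, by omega⟩
    by_contra hn
    have hn := not_lt.mp hn
    have h1 := S.ruleU l (by omega) t hn
    have h2 : traj Q ((C + 3) * N + l + 1) k (Q.F ((C + 3) * N + l + 1) t) ≤
        (S.Dl (N + 1) ^ k) (Q.F ((C + 3) * N + l + 1) t) := by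
      refine traj_le _ k _ fun m hm => ?_
      have h3 := S.ruleV (l + 1 + m) (by omega)
        (traj Q ((C + 3) * N + l + 1) m (Q.F ((C + 3) * N + l + 1) t))
        (ih (k - m - 1) (by omega) (by omega) (l + 1 + m + 1) (by omega) _).le
      rw [show (C + 3) * N + l + 1 + m + 1 = (C + 3) * N + (l + 1 + m) + 1 by omega]
      exact h3
    have h4 : P.h (N + 1) t ≤ (S.Dl (N + 1) ^ k * S.γ) t := by
      refine hn.trans ((Q.step _ t (by omega)).trans ?_)
      refine (le_traj Q ((C + 3) * N + l + 1) k _ (by omega)).trans ?_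
      have h5 : (C + 3) * N + l + 1 + k = (C + 3) * (N + 1) + (C + 2) := by omega
      rw [h5, Q.bot]
      exact h2.trans ((S.Dl (N + 1) ^ k).monotone h1)
    have h6 : Lt (S.Dl (N + 1) ^ k * S.γ) (P.h (N + 1)) := by
      have h7 : Lt (S.γ * S.η ^ (k + 1)) b := by
        have := (pow_le_pow S.η_one.le hk).left S.γ
        exact this.trans_lt S.γη_lt
      rw [S.Dl_last, conj_pow, S.x_eq]
      have h8 := (h7.right (S.η ^ (k + 1))⁻¹).left (b * S.η ^ k * b⁻¹)
      rw [mul_inv_cancel_right] at h8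
      refine h8.trans_le ?_
      have h9 : b * S.η ^ k * b⁻¹ * (b * (S.η ^ (k + 1))⁻¹) = b * S.η⁻¹ := by
        rw [mul_assoc (b * S.η ^ k), inv_mul_cancel_left, mul_assoc, pow_succ', mul_inv_rev,
          mul_inv_cancel_left]
      rw [h9]
      exact Le.rfl
    exact absurd (h4.trans_lt (h6 t)) (lt_irrefl _)

/-- There is no such configuration. -/
theorem false (s : J) : False := by
  have eM : (C + 3) * (N + 1) + (C + 2) = (C + 3) * N + 2 * C + 5 := by ring
  have h1 : Le (b * b) (g * (S.Dl (N + 1) ^ (C + 3) * S.γ ^ (C + 2))) := by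
    refine S.v₀.trans (Le.left g fun s => ?_)
    have h1 : traj Q ((C + 3) * N) (C + 2) s ≤ (S.γ ^ (C + 2)) s :=
      traj_le _ _ s fun l hl => S.ruleU l (by omega) _ (S.upper l (by omega) _).le
    have h2 : traj Q ((C + 3) * N + (C + 2)) (C + 3) (traj Q ((C + 3) * N) (C + 2) s) ≤
        (S.Dl (N + 1) ^ (C + 3)) (traj Q ((C + 3) * N) (C + 2) s) := by
      refine traj_le _ _ _ fun l hl => ?_
      have h3 := S.ruleV (C + 2 + l) (by omega)
        (traj Q ((C + 3) * N + (C + 2)) l (traj Q ((C + 3) * N) (C + 2) s))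
        (S.lower (C + 2 - l) (by omega) (C + 2 + l + 1) (by omega) _).le
      rw [show (C + 3) * N + (C + 2) + l + 1 = (C + 3) * N + (C + 2 + l) + 1 by omega]
      exact h3
    refine (le_traj Q ((C + 3) * N) (C + 2) s (by omega)).trans ?_
    refine (le_traj Q ((C + 3) * N + (C + 2)) (C + 3) _ (by omega)).trans ?_
    rw [show (C + 3) * N + (C + 2) + (C + 3) = (C + 3) * (N + 1) + (C + 2) by omega, Q.bot]
    exact h2.trans ((S.Dl (N + 1) ^ (C + 3)).monotone h1)
  rw [S.Dl_last, conj_pow] at h1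
  have h2 : Le (b * (S.η ^ (C + 3))⁻¹ * (g⁻¹ * b)) (S.γ ^ (C + 2)) := by
    have h3 := h1.left (b * (S.η ^ (C + 3))⁻¹ * b⁻¹ * g⁻¹)
    have h4 : b * (S.η ^ (C + 3))⁻¹ * b⁻¹ * g⁻¹ * (b * b) =
        b * (S.η ^ (C + 3))⁻¹ * (g⁻¹ * b) := by
      have h5 : g⁻¹ * b = b * g⁻¹ := ((show Commute g b from S.comm).inv_left).eq
      calc b * (S.η ^ (C + 3))⁻¹ * b⁻¹ * g⁻¹ * (b * b)
          = b * (S.η ^ (C + 3))⁻¹ * b⁻¹ * (g⁻¹ * b) * b := by simp only [mul_assoc]
        _ = b * (S.η ^ (C + 3))⁻¹ * (b⁻¹ * b) * g⁻¹ * b := by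
          rw [h5]
          simp only [mul_assoc]
        _ = _ := by
          rw [inv_mul_cancel]
          simp only [mul_assoc, mul_one]
    have h6 : b * (S.η ^ (C + 3))⁻¹ * b⁻¹ * g⁻¹ *
        (g * (b * S.η ^ (C + 3) * b⁻¹ * S.γ ^ (C + 2))) = S.γ ^ (C + 2) := by
      group
    rw [h4, h6] at h3
    exact h3
  have h3 : Le (g ^ (C + 2) * (S.η ^ (C + 3))⁻¹ * g ^ (C + 1)) (S.γ ^ (C + 2)) := by
    refine Le.trans ?_ h2
    refine Le.mul (S.gc.right _) ?_
    have h4 := S.gc.left g⁻¹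
    rwa [pow_succ' g (C + 1), inv_mul_cancel_left] at h4
  have h4 : ∀ k : ℕ, g ^ (k + 1) = S.γ * (S.η * S.γ) ^ k * S.η := by
    intro k
    rw [← mul_pow_mul, S.γη, mul_assoc, S.γη, pow_succ]
  rw [h4 (C + 1), h4 C] at h3
  have h5 := h3.left (S.γ)⁻¹
  refine word₃ s S.γ_one S.η_one C ?_
  have h6 : (S.γ)⁻¹ * (S.γ * (S.η * S.γ) ^ (C + 1) * S.η * (S.η ^ (C + 3))⁻¹ *
      (S.γ * (S.η * S.γ) ^ C * S.η)) =
      (S.η * S.γ) ^ (C + 1) * (S.η ^ (C + 2))⁻¹ * (S.γ * (S.η * S.γ) ^ C * S.η) := by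
    have h7 : S.η * (S.η ^ (C + 3))⁻¹ = (S.η ^ (C + 2))⁻¹ := by
      rw [pow_succ S.η (C + 2), mul_inv_rev, mul_inv_cancel_left]
    rw [← h7]
    simp only [mul_assoc, inv_mul_cancel_left]
  rw [h6, pow_succ' S.γ (C + 1), inv_mul_cancel_left] at h5
  exact h5

end Cfg

end Pool.Agent.Helper89.T4
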